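import Mathlib
import Pool.Agent.TH342.ShortSq

/-!
# The curves `y² = x (x - D a) (x - D b)`, `(a, b)` in a short square

For all nonzero integers `D` and all squares of side `X` at distance at most `X ^ L` from the
origin, the sum of the squares of the orders of the 2-Selmer groups of the elliptic curves
`y² = x (x - D a) (x - D b)` over the pairs `(a, b)` of integers in the square is at most
`C 128 ^ ω(D) X²`, with a constant `C` that depends only on `L`. So the number of the pairs for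
which the rank is at least `r` is at most `C 128 ^ ω(D) X² / 4 ^ r`.
-/

set_option autoImplicit false

namespace Pool.Agent.Results.MP_157626_nt.ShortSquares

open Finset

/-- the curve `y² = x (x - A) (x - B)` over `ℚ` -/
def E (A B : ℤ) : WeierstrassCurve ℚ := ⟨0, -((A : ℚ) + B), 0, (A : ℚ) * B, 0⟩

/-- The local condition at a completion `K` of `ℚ`: there is a point `(x, y)`, `y ≠ 0`, of
`y² = x (x - A) (x - B)` over `K` such that `x * d.1` and `(x - A) * d.2` are squares. (Every class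
of `E(K) / 2 E(K)` contains a point with `y ≠ 0`.) -/
def Local (K : Type) [Field K] (A B : ℤ) (d : ℤ × ℤ) : Prop :=
  ∃ x y : K, y ≠ 0 ∧ y ^ 2 = x * (x - A) * (x - B) ∧ IsSquare (x * d.1) ∧ IsSquare ((x - A) * d.2)

/-- The 2-Selmer group of `y² = x (x - A) (x - B)`. The map `(x, y) ↦ (x, x - A)` identifies the
classes of homogeneous spaces with the pairs of classes of nonzero rational numbers modulo squares,
given by squarefree integers `d.1`, `d.2`; the elements of the 2-Selmer group are the pairs which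
over `ℝ` and over `ℚ_[p]` for all primes `p` come from points of the curve. -/
def Sel2 (A B : ℤ) : Set (ℤ × ℤ) :=
  {d | Squarefree d.1 ∧ Squarefree d.2 ∧ Local ℝ A B d ∧
    ∀ (p : ℕ) [Fact p.Prime], Local ℚ_[p] A B d}

/-- The pairs `(a, b)` with `N₁ < a ≤ N₁ + X` and `N₂ < b ≤ N₂ + X` for which
`y² = x (x - a) (x - b)` is an elliptic curve. -/
noncomputable def Sq (N₁ N₂ : ℤ) (X : ℕ) : Finset (ℤ × ℤ) :=
  (Ioc N₁ (N₁ + X) ×ˢ Ioc N₂ (N₂ + X)).filter (fun t => t.1 ≠ 0 ∧ t.2 ≠ 0 ∧ t.1 ≠ t.2)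

/-- **Theorem.** If `A`, `B` are different nonzero integers, the 2-Selmer group of
`y² = x (x - A) (x - B)` is finite, of order at least `2 ^ rank`. For every `L` there is a constant
`C` such that for all integers `D ≠ 0`, `X ≥ 1`, `|N₁|, |N₂| ≤ X ^ L` the sum over the square
`(N₁, N₁ + X] × (N₂, N₂ + X]` of the squares of the orders of the 2-Selmer groups of the curves
`y² = x (x - D a) (x - D b)` is at most `C * 128 ^ ω(D) * X ^ 2`, and the number of the pairs for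
which the rank is at least `r` is at most `C * 128 ^ ω(D) * X ^ 2 / 4 ^ r` for all `r`. -/
theorem result :
    (∀ A B : ℤ, A ≠ 0 → B ≠ 0 → A ≠ B → (Sel2 A B).Finite ∧
      2 ^ Module.finrank ℤ (E A B).toAffine.Point ≤ (Sel2 A B).ncard) ∧
    ∀ L : ℕ, ∃ C : ℝ, ∀ (D N₁ N₂ : ℤ) (X : ℕ), D ≠ 0 → 1 ≤ X → |N₁| ≤ (X : ℤ) ^ L →
      |N₂| ≤ (X : ℤ) ^ L →
      ∑ t ∈ Sq N₁ N₂ X, ((Sel2 (D * t.1) (D * t.2)).ncard : ℝ) ^ 2 ≤
        C * 128 ^ D.natAbs.primeFactors.card * (X : ℝ) ^ 2 ∧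
      ∀ r : ℕ, (((Sq N₁ N₂ X).filter (fun t =>
        r ≤ Module.finrank ℤ (E (D * t.1) (D * t.2)).toAffine.Point)).card : ℝ) ≤
        C * 128 ^ D.natAbs.primeFactors.card * (X : ℝ) ^ 2 / 4 ^ r := by
  have hr : ∀ A B : ℤ, A ≠ 0 → B ≠ 0 → A ≠ B → (Sel2 A B).Finite ∧
      2 ^ Module.finrank ℤ (E A B).toAffine.Point ≤ (Sel2 A B).ncard :=
    fun A B hA hB hAB => Pool.Agent.TH342.SQ.rank_le hA hB hAB
  refine ⟨hr, fun L => ?_⟩
  obtain ⟨C, hC, h⟩ := Pool.Agent.TH342.SQ.all_pairs L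
  refine ⟨C, fun D N₁ N₂ X hD hX hN₁ hN₂ => ?_⟩
  have hN : ∀ N : ℤ, |N| ≤ (X : ℤ) ^ L → N.natAbs ≤ X ^ L := by
    intro N hN
    have : ((N.natAbs : ℕ) : ℤ) ≤ ((X ^ L : ℕ) : ℤ) := by
      rw [Int.natCast_natAbs]
      push_cast
      exact hN
    exact_mod_cast this
  have h1 := h D N₁ N₂ X hD hX (hN N₁ hN₁) (hN N₂ hN₂)
  have h2 : ∑ t ∈ Sq N₁ N₂ X, ((Sel2 (D * t.1) (D * t.2)).ncard : ℝ) ^ 2 =
      ∑ t ∈ Pool.Agent.TH342.SQ.Bx N₁ N₂ X, Pool.Agent.TH342.SQ.GD D t := by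
    unfold Sq Pool.Agent.TH342.SQ.Bx
    rw [sum_filter]
    exact sum_congr rfl fun t _ => rfl
  rw [← h2] at h1
  refine ⟨h1, fun r => ?_⟩
  rw [le_div_iff₀ (by positivity)]
  refine le_trans ?_ h1
  refine le_trans ?_ (sum_le_sum_of_subset_of_nonneg (filter_subset (fun t : ℤ × ℤ =>
    r ≤ Module.finrank ℤ (E (D * t.1) (D * t.2)).toAffine.Point) _) (fun _ _ _ => by positivity))
  rw [← nsmul_eq_mul]
  refine card_nsmul_le_sum _ _ _ fun t ht => ?_
  obtain ⟨ht1, ht2⟩ := mem_filter.1 ht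
  obtain ⟨_, t1, t2, t3⟩ := mem_filter.1 ht1
  have h3 := (hr (D * t.1) (D * t.2) (mul_ne_zero hD t1) (mul_ne_zero hD t2)
    (fun h => t3 (mul_left_cancel₀ hD h))).2
  have h4 : ((2 : ℝ) ^ r) ≤ ((Sel2 (D * t.1) (D * t.2)).ncard : ℝ) := by
    exact_mod_cast (Nat.pow_le_pow_right (by norm_num) ht2).trans h3
  calc (4 : ℝ) ^ r = (2 ^ r) ^ 2 := by rw [← pow_mul, mul_comm, pow_mul]; norm_num
    _ ≤ _ := pow_le_pow_left₀ (by positivity) h4 2

end Pool.Agent.Results.MP_157626_nt.ShortSquares
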