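import Mathlib
import Pool.Agent.TH639.SL.Twist
import Pool.Agent.W402.FK.RKS

/-!
# All moments of the 2-Selmer groups of the twists by a product of linear polynomials

`E` is an elliptic curve over `ℚ` with full rational 2-torsion and `D(t)` a product of pairwise
non-proportional linear polynomials with integer coefficients. For every `k` the average of the
`k`-th power of the order of the 2-Selmer group of the quadratic twist `E^{D(t)}` over the integers
`t` of an interval `(N, N + M]` is bounded, uniformly for `|N| ≤ M ^ L`. So, for every `k`, the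
proportion of the `t` for which `E^{D(t)}` has rank at least `r` is at most `C_k / 2 ^ (k r)`.
-/

set_option autoImplicit false

namespace Pool.Agent.Results.MP_157626_nt.TwistFamilyMoments

open Finset

/-- the curve `y² = x³ + A x + B` over `ℚ` -/
def E (A B : ℤ) : WeierstrassCurve ℚ := ⟨0, 0, 0, (A : ℚ), (B : ℚ)⟩

/-- The local condition at a completion `K` of `ℚ`: there is a point `(x, y)`, `y ≠ 0`, of
`y² = x³ + A x + B` over `K` such that `(x - e) * d e` is a square for all the integer roots `e` of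
`x³ + A x + B`. (Every class of `E(K) / 2 E(K)` contains a point with `y ≠ 0`.) -/
def Local (K : Type) [Field K] (A B : ℤ) (d : ℤ → ℤ) : Prop :=
  ∃ x y : K, y ≠ 0 ∧ y ^ 2 = x ^ 3 + A * x + B ∧
    ∀ e : ℤ, e ^ 3 + A * e + B = 0 → IsSquare ((x - e) * d e)

/-- The 2-Selmer group of `y² = x³ + A x + B`, a curve with three integer roots. As `E[2]` is the
group of the families of signs with product one indexed by the roots, an element of the 2-Selmer
group is a family of classes of nonzero rational numbers modulo squares indexed by the roots `e`,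
given by squarefree integers `d e` (`d e = 1` if `e` is not a root), which over `ℝ` and over `ℚ_[p]`
for all primes `p` is the family of the classes of `x - e` for a point of the curve. -/
def Sel2 (A B : ℤ) : Set (ℤ → ℤ) :=
  {d | (∀ e, Squarefree (d e)) ∧ (∀ e : ℤ, e ^ 3 + A * e + B ≠ 0 → d e = 1) ∧ Local ℝ A B d ∧
    ∀ (p : ℕ) [Fact p.Prime], Local ℚ_[p] A B d}

/-- the product of the linear polynomials `γ i * t + δ i` -/
def D {m : ℕ} (γ δ : Fin m → ℤ) (t : ℤ) : ℤ := ∏ i, (γ i * t + δ i)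

/-- the rank of the quadratic twist `y² = x³ + d² A x + d³ B` by `d` of `y² = x³ + A x + B` -/
noncomputable def rk (A B d : ℤ) : ℕ :=
  Module.finrank ℤ (E (d ^ 2 * A) (d ^ 3 * B)).toAffine.Point

/-- the order of the 2-Selmer group of the quadratic twist by `d` -/
noncomputable def sel (A B d : ℤ) : ℕ := (Sel2 (d ^ 2 * A) (d ^ 3 * B)).ncard

/-- **Theorem.** Let `y² = (x - e₁) (x - e₂) (x - e₃) = x³ + A x + B` be an elliptic curve with
integers `e₁`, `e₂`, `e₃` and `D(t) = ∏ (γ_i t + δ_i)`, `γ_i ≠ 0`, with pairwise non-proportional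
factors. If `D(t) ≠ 0`, the 2-Selmer group of the twist by `D(t)` is finite of order at least
`2 ^ rank`. For all `k` and `L` there is `C` such that for all integers `M ≥ 1` and `|N| ≤ M ^ L` the
sum of the `k`-th powers of the orders of the 2-Selmer groups of the twists by `D(t) ≠ 0`,
`N < t ≤ N + M`, is at most `C M`, and the number of these `t` for which the twist has rank at least
`r` is at most `C M / 2 ^ (k r)` for every `r`. -/
theorem result (A B e₁ e₂ e₃ : ℤ) (hE : 4 * A ^ 3 + 27 * B ^ 2 ≠ 0)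
    (he : ∀ x : ℤ, x ^ 3 + A * x + B = (x - e₁) * (x - e₂) * (x - e₃))
    (m : ℕ) (γ δ : Fin m → ℤ) (hγ : ∀ i, γ i ≠ 0)
    (hγδ : ∀ i j, i ≠ j → γ i * δ j ≠ γ j * δ i) :
    (∀ t : ℤ, D γ δ t ≠ 0 →
      (Sel2 ((D γ δ t) ^ 2 * A) ((D γ δ t) ^ 3 * B)).Finite ∧
        2 ^ rk A B (D γ δ t) ≤ sel A B (D γ δ t)) ∧
    ∀ k L : ℕ, ∃ C : ℝ, ∀ (N : ℤ) (M : ℕ), 1 ≤ M → |N| ≤ (M : ℤ) ^ L →
      ∑ t ∈ (Ioc N (N + M)).filter (fun t => D γ δ t ≠ 0), (sel A B (D γ δ t) : ℝ) ^ k ≤ C * M ∧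
      ∀ r : ℕ, (((Ioc N (N + M)).filter
        (fun t => D γ δ t ≠ 0 ∧ r ≤ rk A B (D γ δ t))).card : ℝ) ≤ C * M / 2 ^ (k * r) := by
  have hsel : ∀ t : ℤ, D γ δ t ≠ 0 →
      (Sel2 ((D γ δ t) ^ 2 * A) ((D γ δ t) ^ 3 * B)).Finite ∧
        2 ^ rk A B (D γ δ t) ≤ sel A B (D γ δ t) := by
    intro t ht
    have h1 := (Pool.Agent.TH639.SL.sel_tw hE he ht).1
    refine ⟨h1, ?_⟩
    exact Pool.Agent.W402.FK.rks _ _ _ _ _ (Pool.Agent.TH639.SL.disc_tw ht hE)
      (Pool.Agent.TH639.SL.roots_tw he (D γ δ t)) h1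
  refine ⟨hsel, fun k L => ?_⟩
  obtain ⟨C, hC⟩ : ∃ C : ℝ, ∀ (N : ℤ) (M : ℕ), 1 ≤ M → |N| ≤ (M : ℤ) ^ L →
      ∑ t ∈ (Ioc N (N + M)).filter (fun t => D γ δ t ≠ 0), (sel A B (D γ δ t) : ℝ) ^ k
        ≤ C * M := by
    rcases Nat.eq_zero_or_pos k with rfl | hk
    · refine ⟨1, fun N M _ _ => ?_⟩
      simp only [pow_zero, sum_const, nsmul_eq_mul, mul_one, one_mul]
      refine (Nat.cast_le.2 (card_filter_le _ _)).trans (le_of_eq ?_)
      rw [Int.card_Ioc]
      simp
    · exact Pool.Agent.TH639.SL.twist_moments hE he m γ δ hγ hγδ k L hk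
  refine ⟨C, fun N M hM hN => ⟨hC N M hM hN, fun r => ?_⟩⟩
  rw [le_div_iff₀ (by positivity)]
  refine le_trans ?_ (hC N M hM hN)
  have hsub : (Ioc N (N + M)).filter (fun t => D γ δ t ≠ 0 ∧ r ≤ rk A B (D γ δ t)) ⊆
      (Ioc N (N + M)).filter (fun t => D γ δ t ≠ 0) := by
    intro t ht
    rw [mem_filter] at ht ⊢
    exact ⟨ht.1, ht.2.1⟩
  refine le_trans ?_ (sum_le_sum_of_subset_of_nonneg hsub (fun _ _ _ => by positivity))
  rw [← nsmul_eq_mul]
  refine card_nsmul_le_sum _ _ _ fun t ht => ?_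
  obtain ⟨_, h1, h2⟩ := mem_filter.1 ht
  have h3 : 2 ^ r ≤ sel A B (D γ δ t) :=
    (Nat.pow_le_pow_right (by norm_num) h2).trans (hsel t h1).2
  have h4 : ((2 : ℝ) ^ r) ≤ (sel A B (D γ δ t) : ℝ) := by exact_mod_cast h3
  rw [mul_comm k r, pow_mul]
  exact pow_le_pow_left₀ (by positivity) h4 k

end Pool.Agent.Results.MP_157626_nt.TwistFamilyMoments
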