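import Mathlib
import Pool.Agent.TH841.TR.Fin2

/-!
# The average rank in one-parameter families with full 2-torsion

`W_t : y² = x (x - D(t) u₀(t)) (x - D(t) u₁(t))`, where `u₀`, `u₁` and `u₂ = u₀ - u₁` are
polynomials with integer coefficients, `u_k` being a constant times a product of `n_k` irreducible
polynomials, these `n₀ + n₁ + n₂` irreducible polynomials being pairwise different, and `D` is any
nonzero polynomial not divisible by one of them. Let `s_k` be the number of the irreducible factors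
of `u_k` at which the elliptic curve over `ℚ(t)` has split multiplicative reduction. If
`2 n_k + s_k ≤ n₀ + n₁ + n₂` for `k = 0, 1, 2`, then the average of
`2 ^ rank * #Ш[2 ^ k] ^ (1 / k)` over `N < t ≤ N + M` is bounded, uniformly for `|N| ≤ M ^ L`.
The condition holds for `n₀ = n₁ = n₂` and any `D`, and for example for the Legendre family
`d y² = x (x - 1) (x - t)` if neither `d` nor `-d` is a square.
-/

set_option autoImplicit false

namespace Pool.Agent.Results.MP_157626_nt.UnbalancedPencils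

open Finset Polynomial

open Pool.Agent.TH841.SH.D (Sha ShaTor HasDiv rk)

/-- the curve `y² = x (x - A) (x - B)` over `ℚ` -/
def E (A B : ℤ) : WeierstrassCurve ℚ := ⟨0, -((A : ℚ) + B), 0, (A : ℚ) * B, 0⟩

/-- `u_k = a_k ∏ f_{k,i}` -/
noncomputable def u {n : Fin 3 → ℕ} (a : Fin 3 → ℤ) (f : ∀ k : Fin 3, Fin (n k) → ℤ[X])
    (k : Fin 3) : ℤ[X] := C (a k) * ∏ i, f k i

/-- `v` is a square modulo `f`, over the rationals -/
def SqMod (f v : ℤ[X]) : Prop := ∃ q : ℚ[X], f.map (Int.castRingHom ℚ) ∣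
  (q ^ 2 - v.map (Int.castRingHom ℚ))

/-- modulo a factor `f` of `u_k`, the curve `y² = x (x - D u₀) (x - D u₁)` has a node whose tangent
directions are the square roots of `v_k`; so the reduction at `f` is split if and only if `v_k` is a
square modulo `f` -/
noncomputable def v {n : Fin 3 → ℕ} (D : ℤ[X]) (a : Fin 3 → ℤ)
    (f : ∀ k : Fin 3, Fin (n k) → ℤ[X]) : Fin 3 → ℤ[X] :=
  ![-(D * u a f 1), -(D * u a f 0), D * u a f 0]

open Classical in
/-- the number of the factors of `u_k` with split multiplicative reduction -/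
noncomputable def s {n : Fin 3 → ℕ} (D : ℤ[X]) (a : Fin 3 → ℤ)
    (f : ∀ k : Fin 3, Fin (n k) → ℤ[X]) (k : Fin 3) : ℕ :=
  (univ.filter (fun i => SqMod (f k i) (v D a f k))).card

open Classical in
/-- the integers `t` with `N < t ≤ N + M` for which the fibre is an elliptic curve -/
noncomputable def Par {n : Fin 3 → ℕ} (D : ℤ[X]) (a : Fin 3 → ℤ)
    (f : ∀ k : Fin 3, Fin (n k) → ℤ[X]) (N : ℤ) (M : ℕ) : Finset ℤ :=
  (Ioc N (N + M)).filter (fun t => ∀ k, (D * u a f k).eval t ≠ 0)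

/-- the fibre at `t` -/
noncomputable def fib {n : Fin 3 → ℕ} (D : ℤ[X]) (a : Fin 3 → ℤ)
    (f : ∀ k : Fin 3, Fin (n k) → ℤ[X]) (t : ℤ) : WeierstrassCurve ℚ :=
  E ((D * u a f 0).eval t) ((D * u a f 1).eval t)

open Classical in
/-- **Theorem.** Let `u_k = a_k ∏_{i < n_k} f_{k,i}`, `k = 0, 1, 2`, be polynomials with integer
coefficients with `u₀ - u₁ = u₂`, where `a_k ≠ 0` and the `n₀ + n₁ + n₂` polynomials `f_{k,i}` are
irreducible of positive degree and pairwise non-associated, let `D ≠ 0` be a polynomial with integer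
coefficients not divisible by any `f_{k,i}`, and let `s_k` be the number of the `i` such that
`y² = x (x - D u₀) (x - D u₁)` has split multiplicative reduction at `f_{k,i}`. Assume that
`2 n_k + s_k ≤ n₀ + n₁ + n₂` for `k = 0, 1, 2`. For every `L` there is `C` such that for all
integers `M ≥ 1` and `|N| ≤ M ^ L` and the elliptic curves
`W_t : y² = x (x - D(t) u₀(t)) (x - D(t) u₁(t))` with `N < t ≤ N + M`: all the groups
`Ш(W_t)[2 ^ k]` are finite, the sum of `2 ^ rank * #Ш(W_t)[2 ^ k] ^ (1 / k)` is at most `C M` for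
all `k ≥ 1`, and at most `C M / 2 ^ (r + q)` of the `W_t` have rank at least `r` and a subgroup
`(ℚ₂ / ℤ₂) ^ q` in the Tate-Shafarevich group. -/
theorem result (n : Fin 3 → ℕ) (a : Fin 3 → ℤ) (f : ∀ k : Fin 3, Fin (n k) → ℤ[X]) (D : ℤ[X])
    (ha : ∀ k, a k ≠ 0) (hf : ∀ k i, Irreducible (f k i) ∧ 0 < (f k i).natDegree)
    (hf' : ∀ k i l j, (⟨k, i⟩ : Σ k : Fin 3, Fin (n k)) ≠ ⟨l, j⟩ → ¬ Associated (f k i) (f l j))
    (hu : u a f 0 - u a f 1 = u a f 2) (hD : D ≠ 0) (hDf : ∀ k i, ¬ f k i ∣ D)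
    (hs : ∀ k, 2 * n k + s D a f k ≤ n 0 + n 1 + n 2) (L : ℕ) :
    ∃ C : ℝ, ∀ (N : ℤ) (M : ℕ), 1 ≤ M → |N| ≤ (M : ℤ) ^ L →
      (∀ t ∈ Par D a f N M, ∀ k : ℕ, Finite (ShaTor (fib D a f t) (2 ^ k))) ∧
      (∀ k : ℕ, 1 ≤ k → ∑ t ∈ Par D a f N M, (2 : ℝ) ^ rk (fib D a f t) *
        (Nat.card (ShaTor (fib D a f t) (2 ^ k)) : ℝ) ^ ((1 : ℝ) / k) ≤ C * M) ∧
      ∀ r q : ℕ, (((Par D a f N M).filter (fun t => r ≤ rk (fib D a f t) ∧
        HasDiv (fib D a f t) q)).card : ℝ) ≤ C * M / 2 ^ (r + q) := by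
  have hirr : Pool.Agent.TH841.PT.Irr (Pool.Agent.TH841.TR.fp f) :=
    ⟨fun x => (hf x.1 x.2).1, fun x => (hf x.1 x.2).2, fun x y hxy => hf' x.1 x.2 y.1 y.2 hxy⟩
  have hB : Pool.Agent.TH841.TR.Bal D a f :=
    Pool.Agent.TH841.TR.bal_of (v := v D a f) rfl rfl rfl hs
  obtain ⟨C, hC⟩ := Pool.Agent.TH841.TR.penQ Pool.Agent.TH841.TR.tav3x a f ha hirr hu D hD hDf hB L
  exact ⟨C, fun N M hM hN => hC N M hM hN _ rfl⟩

end Pool.Agent.Results.MP_157626_nt.UnbalancedPencils
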